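import Mathlib

/-!
# Bounded quadratic forms which do not increase along a unitary operator with averaging powers

`U` is unitary, `R` is bounded with `‖R U v‖ ≤ ‖R v‖` for all `v`, and the averages
`J⁻¹ ∑_{k<J} U^(6^k) v` converge to `α v`, `α ≠ 0`.  Then `‖R U v‖ = ‖R v‖` for all `v`.
-/

set_option autoImplicit false

open Filter Topology Finset
open scoped InnerProductSpace

namespace Run7.h682.SC

variable {K E : Type*} [NormedAddCommGroup K] [InnerProductSpace ℂ K]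
  [NormedAddCommGroup E] [InnerProductSpace ℂ E]

/-- The mean square splits. -/
lemma var_id (R : K →L[ℂ] E) (J : ℕ) (v : ℕ → K) (m : K)
    (hm : (J : ℂ) • m = ∑ k ∈ range J, v k) :
    ∑ k ∈ range J, ‖R (v k)‖ ^ 2 = J * ‖R m‖ ^ 2 + ∑ k ∈ range J, ‖R (v k - m)‖ ^ 2 := by
  have h1 : ∀ k, ‖R (v k)‖ ^ 2 = ‖R m‖ ^ 2 + 2 * RCLike.re ⟪R m, R (v k - m)⟫_ℂ +
      ‖R (v k - m)‖ ^ 2 := by
    intro k
    have h2 : R (v k) = R m + R (v k - m) := by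
      rw [← map_add]
      congr 1
      abel
    rw [h2, @norm_add_sq ℂ]
  rw [sum_congr rfl (fun k _ => h1 k), sum_add_distrib, sum_add_distrib, sum_const, card_range,
    nsmul_eq_mul]
  have h3 : ∑ k ∈ range J, 2 * RCLike.re ⟪R m, R (v k - m)⟫_ℂ = 0 := by
    rw [← mul_sum]
    have h4 : ∑ k ∈ range J, RCLike.re ⟪R m, R (v k - m)⟫_ℂ =
        RCLike.re ⟪R m, R (∑ k ∈ range J, (v k - m))⟫_ℂ := by
      rw [map_sum, inner_sum, map_sum]
    have h5 : ∑ k ∈ range J, (v k - m) = 0 := by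
      rw [sum_sub_distrib, sum_const, card_range, ← hm, ← Nat.cast_smul_eq_nsmul ℂ]
      simp
    rw [h4, h5]
    simp
  rw [h3]
  ring

/-- Convexity of a nonnegative difference of squares. -/
lemma convex (R R' : K →L[ℂ] E) (h : ∀ v, ‖R' v‖ ≤ ‖R v‖) (J : ℕ) (v : ℕ → K) (m : K)
    (hm : (J : ℂ) • m = ∑ k ∈ range J, v k) :
    J * (‖R m‖ ^ 2 - ‖R' m‖ ^ 2) ≤ ∑ k ∈ range J, (‖R (v k)‖ ^ 2 - ‖R' (v k)‖ ^ 2) := by
  have h1 := var_id R J v m hm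
  have h2 := var_id R' J v m hm
  have h3 : ∑ k ∈ range J, ‖R' (v k - m)‖ ^ 2 ≤ ∑ k ∈ range J, ‖R (v k - m)‖ ^ 2 :=
    sum_le_sum fun k _ => pow_le_pow_left₀ (norm_nonneg _) (h _) 2
  rw [sum_sub_distrib, h1, h2]
  linarith

theorem norm_eq [CompleteSpace K] {U : K ≃ₗᵢ[ℂ] K} {α : ℝ} (hα : 0 < α) (R : K →L[ℂ] E)
    (hR : ∀ v, ‖R (U v)‖ ≤ ‖R v‖)
    (avg : ∀ v : K, Tendsto (fun J : ℕ => (J : ℂ)⁻¹ • ∑ k ∈ range J, (U ^ (6 ^ k)) v) atTop
      (𝓝 ((α : ℂ) • v))) (v : K) : ‖R (U v)‖ = ‖R v‖ := by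
  set R' : K →L[ℂ] E := R.comp (U.toContinuousLinearEquiv : K →L[ℂ] K) with hR'
  have hR'v : ∀ w, R' w = R (U w) := fun w => rfl
  -- the orbit of squares
  set a : ℕ → ℝ := fun n => ‖R ((U ^ n) v)‖ ^ 2 with ha
  have hstep : ∀ n, (U ^ (n + 1)) v = U ((U ^ n) v) := by
    intro n
    rw [pow_succ']
    rfl
  have hanti : Antitone a := by
    refine antitone_nat_of_succ_le fun n => ?_
    simp only [ha, hstep]
    exact pow_le_pow_left₀ (norm_nonneg _) (hR _) 2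
  have hbdd : BddBelow (Set.range a) := ⟨0, by
    rintro _ ⟨n, rfl⟩
    exact sq_nonneg _⟩
  have hlim := tendsto_atTop_ciInf hanti hbdd
  set L := ⨅ i, a i with hL
  have hb : Tendsto (fun n => a n - a (n + 1)) atTop (𝓝 0) := by
    have := hlim.sub (hlim.comp (tendsto_add_atTop_nat 1))
    simpa using this
  have h6 : Tendsto (fun k : ℕ => (6 : ℕ) ^ k) atTop atTop :=
    tendsto_pow_atTop_atTop_of_one_lt (by norm_num)
  have hb6 : Tendsto (fun k : ℕ => a (6 ^ k) - a (6 ^ k + 1)) atTop (𝓝 0) := hb.comp h6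
  have hces := hb6.cesaro
  -- the form `C`
  set C : K → ℝ := fun w => ‖R w‖ ^ 2 - ‖R' w‖ ^ 2 with hC
  have hCcont : Continuous C := by
    simp only [hC]
    fun_prop
  have hCa : ∀ k : ℕ, C ((U ^ (6 ^ k)) v) = a (6 ^ k) - a (6 ^ k + 1) := by
    intro k
    simp only [hC, ha, hR'v, hstep]
  have hle : ∀ J : ℕ, 1 ≤ J → C ((J : ℂ)⁻¹ • ∑ k ∈ range J, (U ^ (6 ^ k)) v) ≤
      ((J : ℝ)⁻¹ * ∑ k ∈ range J, (a (6 ^ k) - a (6 ^ k + 1))) := by
    intro J hJ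
    have hJ0 : (J : ℂ) ≠ 0 := by
      exact_mod_cast (by omega : J ≠ 0)
    have hJ1 : (0 : ℝ) < J := by exact_mod_cast hJ
    have := convex R R' (fun w => by rw [hR'v]; exact hR w) J (fun k => (U ^ (6 ^ k)) v)
      ((J : ℂ)⁻¹ • ∑ k ∈ range J, (U ^ (6 ^ k)) v) (by rw [smul_smul, mul_inv_cancel₀ hJ0, one_smul])
    have h2 : ∑ k ∈ range J, (‖R ((U ^ (6 ^ k)) v)‖ ^ 2 - ‖R' ((U ^ (6 ^ k)) v)‖ ^ 2) =
        ∑ k ∈ range J, (a (6 ^ k) - a (6 ^ k + 1)) :=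
      sum_congr rfl fun k _ => hCa k
    rw [h2] at this
    rw [← div_eq_inv_mul, le_div_iff₀ hJ1, mul_comm]
    exact this
  have h1 : Tendsto (fun J : ℕ => C ((J : ℂ)⁻¹ • ∑ k ∈ range J, (U ^ (6 ^ k)) v)) atTop
      (𝓝 (C ((α : ℂ) • v))) := (hCcont.tendsto _).comp (avg v)
  have h2 : C ((α : ℂ) • v) ≤ 0 := by
    refine le_of_tendsto_of_tendsto h1 hces ?_
    filter_upwards [eventually_ge_atTop 1] with J hJ
    exact hle J hJ
  have h3 : C ((α : ℂ) • v) = α ^ 2 * C v := by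
    simp only [hC, map_smul, norm_smul, Complex.norm_real, Real.norm_of_nonneg hα.le]
    ring
  rw [h3] at h2
  have h4 : C v ≤ 0 := by
    by_contra hcon
    push Not at hcon
    have : 0 < α ^ 2 * C v := by positivity
    linarith
  have h5 : ‖R v‖ ^ 2 ≤ ‖R (U v)‖ ^ 2 := by
    have : C v = ‖R v‖ ^ 2 - ‖R (U v)‖ ^ 2 := rfl
    linarith
  have h6 : ‖R v‖ ≤ ‖R (U v)‖ := (sq_le_sq₀ (norm_nonneg _) (norm_nonneg _)).1 h5
  exact le_antisymm (hR v) h6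

end Run7.h682.SC
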