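import Mathlib
import Pool.Agent.Helper139.Tw7
import Pool.Agent.Run7.h682.SC.Avg

/-!
# A power bounded operator of class `C₁₁` which is not similar to a contraction

The operator is the orthogonal sum of the blocks `D U D⁻¹` of the starting file `Helper139.Tw7`
(there it is shown that it is power bounded, of class `C₁₁` and not similar to the unitary sum of
the `U`).  If `S` makes it a contraction, then `v ↦ ‖S D v‖` does not increase along `U`; the
averages of the powers `U ^ (6 ^ k)` force it to be constant along the orbits of `U`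
(`SC.norm_eq`), and the bad vector of the block bounds the condition number of `D` by that of `S`.
-/

set_option autoImplicit false

open Filter Topology
open scoped InnerProductSpace

namespace Run7.h682.SC

open Pool.Agent.Helper139 Pool.Agent.Helper139.Tw6 Pool.Agent.Helper139.Tw7

variable {K : ℕ → Type} [∀ j, NormedAddCommGroup (K j)] [∀ j, InnerProductSpace ℂ (K j)]
  [∀ j, CompleteSpace (K j)]
variable {U : ∀ j, K j ≃ₗᵢ[ℂ] K j} {P : ∀ j, K j →L[ℂ] K j} {κ α : ℕ → ℝ}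

/-- The vectors of one block. -/
noncomputable def Rj (S : lp K 2 →L[ℂ] lp K 2) (P : ∀ j, K j →L[ℂ] K j) (κ : ℕ → ℝ) (j : ℕ) :
    K j →L[ℂ] lp K 2 :=
  S.comp ((lp.singleContinuousLinearMap ℂ K 2 j).comp (D (P j) (κ j)))

lemma Rj_apply (S : lp K 2 →L[ℂ] lp K 2) (j : ℕ) (v : K j) :
    Rj S P κ j v = S (lp.single 2 j (D (P j) (κ j) v)) := rfl

lemma T_single (hB : ∀ j, Block (U j) (P j) (κ j) (α j)) (j : ℕ) (v : K j) :
    T hB (lp.single 2 j (D (P j) (κ j) v)) = lp.single 2 j (D (P j) (κ j) (U j v)) := by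
  ext i
  rw [T_apply, lp.single_apply, lp.single_apply]
  by_cases hij : i = j
  · subst hij
    rw [Pi.single_eq_same, Pi.single_eq_same, Di_D (hB i)]
  · rw [Pi.single_eq_of_ne hij, Pi.single_eq_of_ne hij, map_zero, map_zero, map_zero]

/-- The operator is not similar to a contraction. -/
theorem not_similar_contraction (hB : ∀ j, Block (U j) (P j) (κ j) (α j))
    (hκ : Tendsto κ atTop atTop) (S : lp K 2 ≃L[ℂ] lp K 2)
    (hS : ‖(S : lp K 2 →L[ℂ] lp K 2).comp ((T hB).comp (S.symm : lp K 2 →L[ℂ] lp K 2))‖ ≤ 1) :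
    False := by
  have hST : ∀ x, ‖S (T hB x)‖ ≤ ‖S x‖ := by
    intro x
    have h := ContinuousLinearMap.le_of_opNorm_le _ hS (S x)
    simpa using h
  have hR : ∀ j (v : K j), ‖Rj (S : lp K 2 →L[ℂ] lp K 2) P κ j (U j v)‖ ≤
      ‖Rj (S : lp K 2 →L[ℂ] lp K 2) P κ j v‖ := by
    intro j v
    rw [Rj_apply, Rj_apply, ← T_single hB]
    exact hST _
  have hE : ∀ j (v : K j), ‖Rj (S : lp K 2 →L[ℂ] lp K 2) P κ j (U j v)‖ =
      ‖Rj (S : lp K 2 →L[ℂ] lp K 2) P κ j v‖ := fun j v =>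
    norm_eq (hB j).α_pos _ (hR j) (hB j).avg v
  set A : ℝ := ‖(S.symm : lp K 2 →L[ℂ] lp K 2)‖ * ‖(S : lp K 2 →L[ℂ] lp K 2)‖ with hA
  obtain ⟨j, hj⟩ := (hκ.eventually_gt_atTop (2 * A)).exists
  obtain ⟨v, hv1, hv2, hv3⟩ := (hB j).bad
  have h1 := norm_D_sq (hB j) (κ j) v
  have h1k := (hB j).one_le
  have h2 : κ j / 2 ≤ ‖D (P j) (κ j) v‖ := by
    refine (sq_le_sq₀ (by linarith) (norm_nonneg _)).1 ?_
    rw [h1, hv1]
    have : (1 / 2 : ℝ) ^ 2 ≤ ‖P j v‖ ^ 2 := pow_le_pow_left₀ (by norm_num) hv3 2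
    have h3 := mul_le_mul_of_nonneg_left this (k2 (hB j))
    nlinarith
  let x : lp K 2 := lp.single 2 j (D (P j) (κ j) v)
  have hx : ‖x‖ = ‖D (P j) (κ j) v‖ := lp.norm_single (by norm_num) _ _
  have hU : D (P j) (κ j) (U j v) = U j v := by
    rw [D_apply, hv2, smul_zero, add_zero]
  have h4 : ‖Rj (S : lp K 2 →L[ℂ] lp K 2) P κ j (U j v)‖ ≤ ‖(S : lp K 2 →L[ℂ] lp K 2)‖ := by
    rw [Rj_apply, hU]
    refine (ContinuousLinearMap.le_opNorm _ _).trans ?_
    rw [lp.norm_single (by norm_num), LinearIsometryEquiv.norm_map, hv1, mul_one]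
  have h3 : ‖x‖ ≤ A := by
    calc ‖x‖ = ‖(S.symm : lp K 2 →L[ℂ] lp K 2) (S x)‖ := by simp
      _ ≤ ‖(S.symm : lp K 2 →L[ℂ] lp K 2)‖ * ‖S x‖ := ContinuousLinearMap.le_opNorm _ _
      _ ≤ ‖(S.symm : lp K 2 →L[ℂ] lp K 2)‖ * ‖(S : lp K 2 →L[ℂ] lp K 2)‖ := by
          apply mul_le_mul_of_nonneg_left _ (norm_nonneg _)
          have h5 : ‖S x‖ = ‖Rj (S : lp K 2 →L[ℂ] lp K 2) P κ j v‖ := rfl
          rw [h5, ← hE j v]
          exact h4
  rw [hx] at h3
  linarith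

end Run7.h682.SC
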