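import Mathlib
import Pool.Agent.Helper139.Tw3
import Pool.Agent.Helper139.Tw6

/-!
# The blocks of the tower operators

The lemma `block_of_tower` is taken from the starting file `Pool/Agent/S06114.lean`.
-/

set_option autoImplicit false
open MeasureTheory Filter Topology
open scoped InnerProductSpace BoundedContinuousFunction

namespace Run7.h682.SC

open Pool.Agent.Helper139 Pool.Agent.Helper139.Tw2 Pool.Agent.Helper139.Tw6

lemma block_of_tower {K : Type*} [NormedAddCommGroup K] [InnerProductSpace ℂ K] [CompleteSpace K]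
    {c0 c1 κ : ℝ} {U : K ≃ₗᵢ[ℂ] K} {e : ℕ → ℤ → K} (h : IsTower c0 c1 U e)
    (hs : c0 ^ 2 + c1 ^ 2 = 1) (h0 : 1 / 2 ≤ c0) (h1 : 0 < c1) (hκ : 1 ≤ κ) (hκc : κ * c1 = 1) :
    Block U (Tw2.P e) κ (c0 * c1) where
  idem := P_idem
  symm := P_symm
  one_le := hκ
  pb := by
    intro m f
    have a1 := P_pow h hs m f
    have a2 : 0 ≤ κ ^ 2 - 1 := by nlinarith
    have a3 := mul_le_mul_of_nonneg_left a1 a2
    have a4 : (κ ^ 2 - 1) * (10 * c1 ^ 2 * ‖f‖ ^ 2) ≤ 10 * ‖f‖ ^ 2 := by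
      have : (κ ^ 2 - 1) * (10 * c1 ^ 2 * ‖f‖ ^ 2) =
          10 * ((κ * c1) ^ 2 - c1 ^ 2) * ‖f‖ ^ 2 := by ring
      rw [this, hκc]
      nlinarith [mul_nonneg (sq_nonneg c1) (sq_nonneg ‖f‖)]
    nlinarith
  tends := fun v => tendsto_Fw fun ε hε => P_tends h v ε hε
  avg := by
    intro v
    have := Tw2.avg_tendsto h v
    rw [Complex.ofReal_mul]
    exact this
  α_pos := mul_pos (by linarith) h1
  α_le := by nlinarith [sq_nonneg (c0 - c1)]
  bad := by
    refine ⟨e 0 (-1), norm_e h 0 (-1), ?_, h0.trans (P_em1 h)⟩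
    rw [h.shift]
    exact P_e00 h

end Run7.h682.SC
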